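import Pool.Agent.X219.CB.Basic
import Pool.Agent.H579R3.SC
import Pool.Agent.H534R3.NonBorel

/-! Complexity: the set of names for which a given cylinder meets the body in a countable set, and
the set of those for which it meets the body in exactly one point, are coanalytic. -/

set_option autoImplicit false

open Set Topology MeasureTheory

namespace Pool.Agent.X219.CB

/-- Analytic predicates. -/
def An (P : Baire → Prop) : Prop := AnalyticSet {a | P a}

theorem An.of_meas {P : Baire → Prop} (h : MeasurableSet {a | P a}) : An P := h.analyticSet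

theorem An.congr {P Q : Baire → Prop} (h : An P) (hPQ : ∀ a, P a ↔ Q a) : An Q := by
  have : P = Q := funext fun a => propext (hPQ a)
  rwa [← this]

theorem An.const (p : Prop) : An fun _ => p := by
  refine An.of_meas ?_
  by_cases h : p
  · simp [h]
  · simp [h]

theorem An.and {P Q : Baire → Prop} (hP : An P) (hQ : An Q) : An fun a => P a ∧ Q a :=
  Pool.Agent.H579R3.SV.ana_inter hP hQ

theorem An.ex {ι : Type} [Countable ι] {P : ι → Baire → Prop} (h : ∀ i, An (P i)) :
    An fun a => ∃ i, P i a := by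
  have h1 : {a | ∃ i, P i a} = ⋃ i, {a | P i a} := by ext a; simp
  unfold An
  rw [h1]
  exact AnalyticSet.iUnion h

theorem An.all {ι : Type} [Countable ι] [Nonempty ι] {P : ι → Baire → Prop}
    (h : ∀ i, An (P i)) : An fun a => ∀ i, P i a := by
  have h1 : {a | ∀ i, P i a} = ⋂ i, {a | P i a} := by ext a; simp
  unfold An
  rw [h1]
  exact AnalyticSet.iInter h

theorem An.or {P Q : Baire → Prop} (hP : An P) (hQ : An Q) : An fun a => P a ∨ Q a := by
  have h1 : An fun a => ∃ b : Bool, (if b = true then P a else Q a) :=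
    An.ex fun b => by cases b <;> simpa
  refine h1.congr fun a => ?_
  simp [or_comm]

theorem An.proj {Q : Baire → Baire → Prop} (h : MeasurableSet {p : Baire × Baire | Q p.1 p.2}) :
    An fun a => ∃ y, Q a y := by
  have h1 : {a | ∃ y, Q a y} = Prod.fst '' {p : Baire × Baire | Q p.1 p.2} := by
    ext a
    simp
  unfold An
  rw [h1]
  exact h.analyticSet.image_of_continuous continuous_fst

theorem ms_all {α ι : Type} [MeasurableSpace α] [Countable ι] {P : ι → α → Prop}
    (h : ∀ i, MeasurableSet {a | P i a}) : MeasurableSet {a | ∀ i, P i a} := by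
  have h1 : {a | ∀ i, P i a} = ⋂ i, {a | P i a} := by ext a; simp
  rw [h1]
  exact MeasurableSet.iInter h

theorem ms_ex {α ι : Type} [MeasurableSpace α] [Countable ι] {P : ι → α → Prop}
    (h : ∀ i, MeasurableSet {a | P i a}) : MeasurableSet {a | ∃ i, P i a} := by
  have h1 : {a | ∃ i, P i a} = ⋃ i, {a | P i a} := by ext a; simp
  rw [h1]
  exact MeasurableSet.iUnion h

theorem ms_and {α : Type} [MeasurableSpace α] {P Q : α → Prop}
    (h : MeasurableSet {a | P a}) (h' : MeasurableSet {a | Q a}) :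
    MeasurableSet {a | P a ∧ Q a} := h.inter h'

theorem ms_imp {α : Type} [MeasurableSpace α] {P Q : α → Prop}
    (h : MeasurableSet {a | P a}) (h' : MeasurableSet {a | Q a}) :
    MeasurableSet {a | P a → Q a} := by
  have h1 : {a | P a → Q a} = {a | P a}ᶜ ∪ {a | Q a} := by
    ext a
    simp [imp_iff_not_or]
  rw [h1]
  exact h.compl.union h'

theorem ms_const {α : Type} [MeasurableSpace α] (p : Prop) : MeasurableSet {_a : α | p} := by
  by_cases h : p
  · simp [h]
  · simp [h]

theorem ms_snd (n k : ℕ) : MeasurableSet {p : Baire × Baire | p.2 n = k} := by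
  have h : Measurable fun p : Baire × Baire => p.2 n :=
    (measurable_pi_apply n).comp measurable_snd
  exact h (measurableSet_singleton k)

theorem ms_fst {P : Baire → Prop} (h : MeasurableSet {a | P a}) :
    MeasurableSet {p : Baire × Baire | P p.1} := measurable_fst h

theorem ms_seg (n : ℕ) (s : List ℕ) : MeasurableSet {a : Baire | seg a n = s} := by
  by_cases h : s.length = n
  · have h1 : {a : Baire | seg a n = s} = cyl s := by
      subst h
      rfl
    rw [h1]
    exact (isClopen_cyl s).isOpen.measurableSet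
  · have h1 : {a : Baire | seg a n = s} = ∅ := by
      rw [eq_empty_iff_forall_notMem]
      rintro a rfl
      simp at h
    rw [h1]
    exact MeasurableSet.empty

/-- Infinite branches of a tree. -/
def body (T : List ℕ → Prop) : Set Baire := {x | ∀ n, T (seg x n)}

theorem isClosed_body (T : List ℕ → Prop) : IsClosed (body T) := by
  have h : body T = ⋂ (n : ℕ) (s : List ℕ) (_ : s.length = n ∧ ¬ T s), (cyl s)ᶜ := by
    ext x
    simp only [body, mem_iInter, mem_compl_iff]
    constructor
    · rintro h n s ⟨hs, hT⟩ hx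
      refine hT ?_
      have h1 : seg x s.length = s := hx
      rw [← h1]
      exact h _
    · intro h n
      by_contra hT
      exact h n (seg x n) ⟨by simp, hT⟩ (mem_cyl_seg x n)
  rw [h]
  exact isClosed_iInter fun n => isClosed_iInter fun s => isClosed_iInter fun _ =>
    (isClopen_cyl s).compl.isClosed

section Tree

variable {T : List ℕ → Prop}

theorem mem_body_of {x : Baire} (hT : ∀ s t, s <+: t → T t → T s) {τ : ℕ → List ℕ}
    (hx : ∀ i, x ∈ cyl (τ i)) (hl : ∀ i, i ≤ (τ i).length) (h : ∀ i, T (τ i)) : x ∈ body T := by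
  intro n
  refine hT _ (τ n) ?_ (h n)
  have h1 : seg x (τ n).length = τ n := hx n
  rw [← h1]
  exact seg_prefix (hl n)

/-- Perfect subtrees. -/
def PerfWit (T : List ℕ → Prop) (σ : List ℕ) (W : List ℕ → Prop) : Prop :=
  (∃ τ, W τ ∧ σ <+: τ) ∧ (∀ τ, W τ → T τ) ∧
    ∀ τ, W τ → ∃ τ₁ τ₂, W τ₁ ∧ W τ₂ ∧ τ <+: τ₁ ∧ τ <+: τ₂ ∧ ¬ τ₁ <+: τ₂ ∧ ¬ τ₂ <+: τ₁

theorem not_countable_iff (hT : ∀ s t, s <+: t → T t → T s) (σ : List ℕ) :
    ¬ (cyl σ ∩ body T).Countable ↔ ∃ W, PerfWit T σ W := by
  constructor
  · intro h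
    have hcl : IsClosed (cyl σ ∩ body T) := (isClopen_cyl σ).isClosed.inter (isClosed_body T)
    obtain ⟨D, hD, ⟨x0, hx0⟩, hsub⟩ := exists_perfect_nonempty_of_isClosed_of_not_countable hcl h
    refine ⟨fun τ => ∃ x ∈ D, x ∈ cyl τ, ⟨σ, ⟨x0, hx0, (hsub hx0).1⟩, List.prefix_rfl⟩, ?_, ?_⟩
    · rintro τ ⟨x, hx, hxτ⟩
      have h1 : seg x τ.length = τ := hxτ
      rw [← h1]
      exact (hsub hx).2 _
    · rintro τ ⟨x, hx, hxτ⟩
      have hacc := hD.acc
      rw [preperfect_iff_nhds] at hacc
      obtain ⟨y, ⟨hy1, hy2⟩, hyx⟩ := hacc x hx (cyl τ) ((isClopen_cyl τ).isOpen.mem_nhds hxτ)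
      obtain ⟨n, hn⟩ := exists_ne_seg hyx
      let m := max n τ.length
      have hne : seg y m ≠ seg x m := hn m (le_max_left _ _)
      have e1 : ¬ seg x m <+: seg y m := fun h => hne (h.eq_of_length (by simp)).symm
      have e2 : ¬ seg y m <+: seg x m := fun h => hne (h.eq_of_length (by simp))
      exact ⟨seg x m, seg y m, ⟨x, hx, mem_cyl_seg _ _⟩, ⟨y, hy2, mem_cyl_seg _ _⟩,
        prefix_of_mem hxτ (le_max_right _ _), prefix_of_mem hy1 (le_max_right _ _), e1, e2⟩
  · rintro ⟨W, ⟨τ0, hτ0, hσ⟩, hWT, hW⟩ hc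
    have hstep : ∀ (x : Baire) (τ : List ℕ), W τ → ∃ τ', W τ' ∧ τ <+: τ' ∧
        τ.length < τ'.length ∧ x ∉ cyl τ' := by
      intro x τ hτ
      obtain ⟨τ₁, τ₂, h1, h2, h3, h4, h5, h6⟩ := hW τ hτ
      have hl1 : τ.length < τ₁.length := by
        rcases h3.length_le.lt_or_eq with h | h
        · exact h
        · exact absurd (h3.eq_of_length h ▸ h4) h5
      have hl2 : τ.length < τ₂.length := by
        rcases h4.length_le.lt_or_eq with h | h
        · exact h
        · exact absurd (h4.eq_of_length h ▸ h3) h6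
      by_cases hx : x ∈ cyl τ₁
      · refine ⟨τ₂, h2, h4, hl2, fun hx2 => ?_⟩
        rcases le_total τ₁.length τ₂.length with h | h
        · refine h5 (List.prefix_of_prefix_length_le (prefix_of_mem hx h)
            (prefix_of_mem hx2 le_rfl) h)
        · refine h6 (List.prefix_of_prefix_length_le (prefix_of_mem hx2 h)
            (prefix_of_mem hx le_rfl) h)
      · exact ⟨τ₁, h1, h3, hl1, hx⟩
    have hne : ∃ e : ℕ → Baire, cyl σ ∩ body T ⊆ range e := by
      rcases (cyl σ ∩ body T).eq_empty_or_nonempty with h | h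
      · exact ⟨fun _ _ => 0, by rw [h]; exact empty_subset _⟩
      · obtain ⟨e, he⟩ := hc.exists_eq_range h
        exact ⟨e, he.le⟩
    obtain ⟨e, he⟩ := hne
    choose! nx hnx1 hnx2 hnx3 hnx4 using hstep
    let τ : ℕ → List ℕ := fun n => Nat.rec τ0 (fun n t => nx (e n) t) n
    have hτW : ∀ n, W (τ n) := by
      intro n
      induction n with
      | zero => exact hτ0
      | succ n ih => exact hnx1 (e n) _ ih
    obtain ⟨x, hx⟩ := chain_limit (τ := τ) (fun n => hnx2 (e n) _ (hτW n))
      (fun n => hnx3 (e n) _ (hτW n))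
    have hlen : ∀ i, i ≤ (τ i).length := by
      intro i
      induction i with
      | zero => exact Nat.zero_le _
      | succ i ih => exact Nat.succ_le_of_lt (ih.trans_lt (hnx3 (e i) _ (hτW i)))
    have hxb : x ∈ body T := mem_body_of hT hx hlen fun i => hWT _ (hτW i)
    obtain ⟨i, hi⟩ := he ⟨cyl_anti hσ (hx 0), hxb⟩
    have h9 : x ∈ cyl (τ (i + 1)) := hx (i + 1)
    rw [← hi] at h9
    exact hnx4 (e i) _ (hτW i) h9

/-- A length preserving monotone map of the tree above `σ` into the tree above `τ`. -/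
def IsMap (T : List ℕ → Prop) (σ τ : List ℕ) (g : List ℕ → List ℕ) : Prop :=
  (∀ u, (g u).length = u.length) ∧ (∀ u i, g u <+: g (u ++ [i])) ∧
    ∀ u, T (σ ++ u) → T (τ ++ g u)

/-- The tree above `σ` maps into the tree above `τ`. -/
def Le (T : List ℕ → Prop) (σ τ : List ℕ) : Prop := ∃ g, IsMap T σ τ g

/-- The tree above `σ` has an infinite branch. -/
def IF (T : List ℕ → Prop) (σ : List ℕ) : Prop := (cyl σ ∩ body T).Nonempty

theorem IF_iff (hT : ∀ s t, s <+: t → T t → T s) (σ : List ℕ) :
    IF T σ ↔ ∃ y : Baire, ∀ n, T (σ ++ seg y n) := by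
  constructor
  · rintro ⟨x, hx1, hx2⟩
    refine ⟨fun n => x (σ.length + n), fun n => ?_⟩
    have h1 : σ ++ seg (fun n => x (σ.length + n)) n = seg x (σ.length + n) := by
      have h2 : seg x σ.length = σ := hx1
      conv_lhs => rw [← h2]
      rw [seg, seg, seg, List.range_add, List.map_append, List.map_map]
      simp [Function.comp_def]
    rw [h1]
    exact hx2 _
  · rintro ⟨y, hy⟩
    obtain ⟨x, hx⟩ := chain_limit (τ := fun n => σ ++ seg y n)
      (fun n => (List.prefix_append_right_inj σ).2 (seg_prefix (Nat.le_succ n)))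
      (fun n => by simp)
    refine ⟨x, by simpa [seg] using hx 0, mem_body_of hT hx (fun n => by simp) hy⟩

theorem IF_of_le (hT : ∀ s t, s <+: t → T t → T s) {σ τ : List ℕ} (h : Le T σ τ)
    (hσ : IF T σ) : IF T τ := by
  obtain ⟨g, hg1, hg2, hg3⟩ := h
  obtain ⟨y, hy⟩ := (IF_iff hT σ).1 hσ
  obtain ⟨x, hx⟩ := chain_limit (τ := fun n => τ ++ g (seg y n))
    (fun n => by
      refine (List.prefix_append_right_inj τ).2 ?_
      rw [seg_succ]
      exact hg2 _ _)
    (fun n => by simp [hg1])
  refine ⟨x, ?_, mem_body_of hT hx (fun n => by simp [hg1]) fun n => hg3 _ (hy n)⟩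
  exact cyl_anti (List.prefix_append _ _) (hx 0)

theorem le_of_not_mem {σ τ : List ℕ} (hT : ∀ s t, s <+: t → T t → T s) (h : ¬ T σ) :
    Le T σ τ := by
  refine ⟨fun u => u, fun u => rfl, fun u i => List.prefix_append _ _, fun u hu => ?_⟩
  exact absurd (hT _ _ (List.prefix_append _ _) hu) h

/-- Comparison through children. -/
theorem le_of_children {σ τ : List ℕ} (hτ : T τ)
    (h : ∀ i, ∃ j, Le T (σ ++ [i]) (τ ++ [j])) : Le T σ τ := by
  choose j g hg1 hg2 hg3 using h
  let G : List ℕ → List ℕ := fun u => match u with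
    | [] => []
    | i :: u => j i :: g i u
  refine ⟨G, ?_, ?_, ?_⟩
  · rintro (_ | ⟨i, u⟩)
    · rfl
    · simp [G, hg1]
  · rintro (_ | ⟨i, u⟩) k
    · exact List.nil_prefix
    · show j i :: g i u <+: j i :: g i (u ++ [k])
      exact (List.prefix_cons_inj _).2 (hg2 i u k)
  · rintro (_ | ⟨i, u⟩) hu
    · simpa [G] using hτ
    · show T (τ ++ (j i :: g i u))
      have h1 := hg3 i u (by simpa using hu)
      simpa using h1

/-- If the tree above `σ` is well-founded then the trees above `σ` and `τ` are comparable. -/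
theorem comparable (hT : ∀ s t, s <+: t → T t → T s) {σ : List ℕ} (hσ : ¬ IF T σ) :
    ∀ τ, Le T σ τ ∨ Le T τ σ := by
  by_contra hcon
  let Bad : List ℕ → Prop := fun σ => ∃ τ, ¬ (Le T σ τ ∨ Le T τ σ)
  have hstep : ∀ σ, Bad σ → T σ ∧ ∃ i, Bad (σ ++ [i]) := by
    rintro σ ⟨τ, hτ⟩
    push Not at hτ
    have hTσ : T σ := by
      by_contra h
      exact hτ.1 (le_of_not_mem hT h)
    have hTτ : T τ := by
      by_contra h
      exact hτ.2 (le_of_not_mem hT h)
    refine ⟨hTσ, ?_⟩
    by_contra hc
    push Not at hc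
    have h1 : ¬ ∀ i, ∃ j, Le T (σ ++ [i]) (τ ++ [j]) := fun h => hτ.1 (le_of_children hTτ h)
    push Not at h1
    obtain ⟨i, hi⟩ := h1
    refine hτ.2 (le_of_children hTσ fun j => ⟨i, ?_⟩)
    by_contra h2
    exact hc i ⟨τ ++ [j], by
      push Not
      exact ⟨hi j, h2⟩⟩
  have hb : Bad σ := by
    push Not at hcon
    obtain ⟨τ, hτ⟩ := hcon
    exact ⟨τ, by
      push Not
      exact hτ⟩
  choose! nx hnx using fun σ h => (hstep σ h).2
  let ρ : ℕ → List ℕ := fun n => Nat.rec σ (fun _ t => t ++ [nx t]) n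
  have hρ : ∀ n, Bad (ρ n) := by
    intro n
    induction n with
    | zero => exact hb
    | succ n ih => exact hnx _ ih
  obtain ⟨x, hx⟩ := chain_limit (τ := ρ) (fun n => List.prefix_append _ _) (fun n => by simp [ρ])
  refine hσ ⟨x, hx 0, mem_body_of hT hx ?_ fun n => (hstep _ (hρ n)).1⟩
  intro i
  induction i with
  | zero => exact Nat.zero_le _
  | succ i ih =>
    have : (ρ (i + 1)).length = (ρ i).length + 1 := by simp [ρ]
    omega

/-- The criterion for a tree to have exactly one branch above `σ`. -/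
theorem isol_iff (hT : ∀ s t, s <+: t → T t → T s) (σ : List ℕ) :
    Isol (body T) σ ↔ ∀ n, ∃ τ : List ℕ, τ.length = n ∧ ∀ ρ : List ℕ, ρ.length = n → ρ ≠ τ →
      ¬ IF T (σ ++ ρ) ∧ ¬ Le T (σ ++ τ) (σ ++ ρ) := by
  constructor
  · rintro ⟨x, hx⟩ n
    have hxm : x ∈ cyl σ ∩ body T := by rw [hx]; rfl
    obtain ⟨ρ0, hρ0⟩ : σ <+: seg x (σ.length + n) := prefix_of_mem hxm.1 (Nat.le_add_right _ _)
    have hlen : ρ0.length = n := by
      have := congrArg List.length hρ0
      simpa using this
    have hIF : IF T (σ ++ ρ0) := ⟨x, by rw [hρ0]; exact mem_cyl_seg _ _, hxm.2⟩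
    refine ⟨ρ0, hlen, fun ρ hρ hne => ?_⟩
    have h1 : ¬ IF T (σ ++ ρ) := by
      rintro ⟨y, hy1, hy2⟩
      have h2 : y ∈ cyl σ ∩ body T := ⟨cyl_anti (List.prefix_append _ _) hy1, hy2⟩
      rw [hx] at h2
      have h3 : y = x := h2
      subst h3
      have h4 : seg y (σ ++ ρ).length = σ ++ ρ := hy1
      have h5 : (σ ++ ρ).length = σ.length + n := by simp [hρ]
      rw [h5, ← hρ0] at h4
      exact hne (List.append_cancel_left h4).symm
    exact ⟨h1, fun h => h1 (IF_of_le hT h hIF)⟩
  · intro h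
    -- at most one branch
    have huniq : ∀ x ∈ cyl σ ∩ body T, ∀ y ∈ cyl σ ∩ body T, x = y := by
      rintro x ⟨hx1, hx2⟩ y ⟨hy1, hy2⟩
      by_contra hne
      obtain ⟨n, hn⟩ := exists_ne_seg hne
      have hn := hn (σ.length + n) (Nat.le_add_left _ _)
      obtain ⟨τ, hτ, hτ'⟩ := h n
      obtain ⟨ρ, hρ⟩ : σ <+: seg x (σ.length + n) := prefix_of_mem hx1 (Nat.le_add_right _ _)
      obtain ⟨ρ', hρ'⟩ : σ <+: seg y (σ.length + n) := prefix_of_mem hy1 (Nat.le_add_right _ _)
      have hl : ρ.length = n := by simpa using congrArg List.length hρ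
      have hl' : ρ'.length = n := by simpa using congrArg List.length hρ'
      have e1 : ρ = τ := by
        by_contra hh
        exact (hτ' ρ hl hh).1 ⟨x, by rw [hρ]; exact mem_cyl_seg _ _, hx2⟩
      have e2 : ρ' = τ := by
        by_contra hh
        exact (hτ' ρ' hl' hh).1 ⟨y, by rw [hρ']; exact mem_cyl_seg _ _, hy2⟩
      exact hn (by rw [← hρ, ← hρ', e1, e2])
    have hex : (cyl σ ∩ body T).Nonempty := by
      by_contra hWF
      have hWF' : ∀ ρ, ¬ IF T (σ ++ ρ) := fun ρ h => hWF (h.mono
        (inter_subset_inter_left _ (cyl_anti (List.prefix_append _ _))))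
      choose τ hτ1 hτ2 using h
      have hTτ : ∀ n, T (σ ++ τ n) := by
        have h1 : ∀ n, 0 < n → T (σ ++ τ n) := by
          intro n hn
          by_contra hc
          obtain ⟨ρ, hρ, hne⟩ : ∃ ρ : List ℕ, ρ.length = n ∧ ρ ≠ τ n := by
            refine ⟨(τ n).map (· + 1), by simp [hτ1], fun h => ?_⟩
            have h3 : 0 < (τ n).length := by rw [hτ1]; exact hn
            have h4 := congrArg (fun l => l[0]?) h
            simp [h3] at h4
          exact (hτ2 n ρ hρ hne).2 (le_of_not_mem hT hc)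
        intro n
        rcases Nat.eq_zero_or_pos n with rfl | hn
        · have h2 : τ 0 = [] := List.length_eq_zero_iff.1 (hτ1 0)
          rw [h2, List.append_nil]
          exact hT _ _ (List.prefix_append _ _) (h1 1 one_pos)
        · exact h1 n hn
      have hcoh : ∀ n, τ n <+: τ (n + 1) := by
        intro n
        obtain ⟨ρ, k, hρk⟩ : ∃ ρ k, τ (n + 1) = ρ ++ [k] := by
          rcases List.eq_nil_or_concat (τ (n + 1)) with h | ⟨ρ, k, h⟩
          · have := hτ1 (n + 1)
            rw [h] at this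
            simp at this
          · exact ⟨ρ, k, by simpa using h⟩
        have hρn : ρ.length = n := by
          have := hτ1 (n + 1)
          rw [hρk] at this
          simpa using this
        by_cases he : ρ = τ n
        · rw [hρk, he]
          exact List.prefix_append _ _
        · exfalso
          refine (hτ2 n ρ hρn he).2 (le_of_children ?_ fun i => ⟨k, ?_⟩)
          · refine hT _ _ ?_ (hTτ (n + 1))
            rw [hρk, ← List.append_assoc]
            exact List.prefix_append _ _
          · have h5 : τ n ++ [i] ≠ τ (n + 1) := by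
              rw [hρk]
              intro h
              exact he (List.append_inj' h rfl).1.symm
            have h6 := hτ2 (n + 1) (τ n ++ [i]) (by simp [hτ1]) h5
            have h7 := comparable hT (hWF' (τ n ++ [i])) (σ ++ τ (n + 1))
            have h8 := h7.resolve_right h6.2
            rw [hρk] at h8
            simpa using h8
      obtain ⟨x, hx⟩ := chain_limit (τ := fun n => σ ++ τ n)
        (fun n => (List.prefix_append_right_inj σ).2 (hcoh n)) (fun n => by simp [hτ1])
      refine hWF ⟨x, cyl_anti (List.prefix_append _ _) (hx 0), mem_body_of hT hx ?_ hTτ⟩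
      intro i
      simp [hτ1]
    obtain ⟨x, hx⟩ := hex
    exact ⟨x, Set.eq_singleton_iff_unique_mem.2 ⟨hx, fun y hy => huniq y hy x hx⟩⟩

end Tree

section Family

variable {T : Baire → List ℕ → Prop}

theorem An_not_countable (hm : ∀ τ, MeasurableSet {a | T a τ})
    (hT : ∀ a s t, s <+: t → T a t → T a s) (σ : List ℕ) :
    An fun a => ¬ (cyl σ ∩ body (T a)).Countable := by
  classical
  have h1 : An fun a => ∃ y : Baire, PerfWit (T a) σ (fun τ => y (Encodable.encode τ) = 1) :=
    An.proj (ms_and (ms_ex fun τ => ms_and (ms_snd _ _) (ms_const _))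
      (ms_and (ms_all fun τ => ms_imp (ms_snd _ _) (ms_fst (hm τ)))
        (ms_all fun τ => ms_imp (ms_snd _ _) (ms_ex fun τ₁ => ms_ex fun τ₂ =>
          ms_and (ms_snd _ _) (ms_and (ms_snd _ _) (ms_const _))))))
  refine h1.congr fun a => ?_
  rw [not_countable_iff (hT a)]
  constructor
  · rintro ⟨y, hy⟩
    exact ⟨_, hy⟩
  · rintro ⟨W, hW⟩
    refine ⟨fun n => if W (Denumerable.ofNat (List ℕ) n) then 1 else 0, ?_⟩
    have h2 : (fun τ : List ℕ => (if W (Denumerable.ofNat (List ℕ) (Encodable.encode τ))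
        then 1 else 0) = 1) = W := by
      funext τ
      rw [Denumerable.ofNat_encode]
      by_cases h : W τ <;> simp [h]
    rw [h2]
    exact hW

theorem An_IF (hm : ∀ τ, MeasurableSet {a | T a τ})
    (hT : ∀ a s t, s <+: t → T a t → T a s) (σ : List ℕ) : An fun a => IF (T a) σ := by
  have h1 : An fun a => ∃ y : Baire, ∀ n, ∀ s, seg y n = s → T a (σ ++ s) :=
    An.proj (ms_all fun n => ms_all fun s => ms_imp (measurable_snd (ms_seg n s)) (ms_fst (hm _)))
  refine h1.congr fun a => ?_
  rw [IF_iff (hT a)]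
  constructor
  · rintro ⟨y, hy⟩
    exact ⟨y, fun n => hy n _ rfl⟩
  · rintro ⟨y, hy⟩
    refine ⟨y, ?_⟩
    rintro n s rfl
    exact hy n

theorem An_Le (hm : ∀ τ, MeasurableSet {a | T a τ}) (σ τ : List ℕ) :
    An fun a => Le (T a) σ τ := by
  have h1 : An fun a => ∃ y : Baire,
      (∀ u : List ℕ, ∀ k, y (Encodable.encode u) = k →
        (Denumerable.ofNat (List ℕ) k).length = u.length) ∧
      (∀ u : List ℕ, ∀ i : ℕ, ∀ k, ∀ l, y (Encodable.encode u) = k →
        y (Encodable.encode (u ++ [i])) = l →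
        Denumerable.ofNat (List ℕ) k <+: Denumerable.ofNat (List ℕ) l) ∧
      (∀ u : List ℕ, ∀ k, y (Encodable.encode u) = k → T a (σ ++ u) →
        T a (τ ++ Denumerable.ofNat (List ℕ) k)) :=
    An.proj (ms_and (ms_all fun u => ms_all fun k => ms_imp (ms_snd _ _) (ms_const _))
      (ms_and (ms_all fun u => ms_all fun i => ms_all fun k => ms_all fun l =>
        ms_imp (ms_snd _ _) (ms_imp (ms_snd _ _) (ms_const _)))
        (ms_all fun u => ms_all fun k => ms_imp (ms_snd _ _)
          (ms_imp (ms_fst (hm _)) (ms_fst (hm _))))))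
  refine h1.congr fun a => ?_
  constructor
  · rintro ⟨y, hy1, hy2, hy3⟩
    exact ⟨fun u => Denumerable.ofNat (List ℕ) (y (Encodable.encode u)),
      fun u => hy1 u _ rfl, fun u i => hy2 u i _ _ rfl rfl, fun u => hy3 u _ rfl⟩
  · rintro ⟨g, hg1, hg2, hg3⟩
    refine ⟨fun n => Encodable.encode (g (Denumerable.ofNat (List ℕ) n)), ?_, ?_, ?_⟩
    · rintro u k rfl
      simp only [Denumerable.ofNat_encode]
      exact hg1 u
    · rintro u i k l rfl rfl
      simp only [Denumerable.ofNat_encode]
      exact hg2 u i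
    · rintro u k rfl
      simp only [Denumerable.ofNat_encode]
      exact hg3 u

theorem An_not_isol (hm : ∀ τ, MeasurableSet {a | T a τ})
    (hT : ∀ a s t, s <+: t → T a t → T a s) (σ : List ℕ) :
    An fun a => ¬ Isol (body (T a)) σ := by
  have h1 : An fun a => ∃ n : ℕ, ∀ τ : List ℕ, ¬ τ.length = n ∨ ∃ ρ : List ℕ,
      (ρ.length = n ∧ ρ ≠ τ) ∧ (IF (T a) (σ ++ ρ) ∨ Le (T a) (σ ++ τ) (σ ++ ρ)) :=
    An.ex fun n => An.all fun τ => An.or (An.const _) (An.ex fun ρ =>
      An.and (An.const _) (An.or (An_IF hm hT _) (An_Le hm _ _)))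
  refine h1.congr fun a => ?_
  rw [isol_iff (hT a)]
  push Not
  refine exists_congr fun n => forall_congr' fun τ => ?_
  constructor
  · rintro (h | ⟨ρ, ⟨h1, h2⟩, h3⟩) hn
    · exact absurd hn h
    · exact ⟨ρ, h1, h2, fun h => h3.resolve_left h⟩
  · intro h
    by_cases hn : τ.length = n
    · obtain ⟨ρ, h1, h2, h3⟩ := h hn
      exact Or.inr ⟨ρ, ⟨h1, h2⟩, or_iff_not_imp_left.2 h3⟩
    · exact Or.inl hn

end Family

/-- The set of names of nonempty closed sets is not Borel. -/
theorem not_meas_nonempty : ¬ MeasurableSet {a : Baire | (closedOf a).Nonempty} := by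
  classical
  intro hM
  refine Pool.Agent.H534R3.NonBorel.illFounded_not_measurable ?_
  let F : (List ℕ → Bool) → Baire := fun t n =>
    if t (Denumerable.ofNat (List ℕ) n) = true then 0 else n + 1
  have hF : Measurable F := by
    refine measurable_pi_lambda _ fun n => ?_
    have h1 : Measurable fun t : List ℕ → Bool => t (Denumerable.ofNat (List ℕ) n) :=
      measurable_pi_apply _
    exact (measurable_of_countable fun b : Bool => if b = true then 0 else n + 1).comp h1
  have h2 : {t : List ℕ → Bool | ∃ f : ℕ → ℕ, ∀ n,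
      t (Pool.Agent.H534R3.NonBorel.br f n) = true} =
      F ⁻¹' {a : Baire | (closedOf a).Nonempty} := by
    ext t
    constructor
    · rintro ⟨f, hf⟩
      refine ⟨f, fun n s hn hs => ?_⟩
      have h3 : seg f s.length = s := hs
      have h4 := hf s.length
      have h5 : Pool.Agent.H534R3.NonBorel.br f s.length = s := h3
      rw [h5] at h4
      by_cases h6 : t (Denumerable.ofNat (List ℕ) n) = true
      · simp [F, h6] at hn
      · simp only [F, h6] at hn
        have h7 : n = Encodable.encode s := by simpa using hn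
        rw [h7, Denumerable.ofNat_encode] at h6
        exact h6 h4
    · rintro ⟨f, hf⟩
      refine ⟨f, fun n => ?_⟩
      by_contra h
      refine hf (Encodable.encode (seg f n)) (seg f n) ?_ (mem_cyl_seg f n)
      simp only [F, Denumerable.ofNat_encode]
      exact if_neg h
  rw [h2]
  exact hF hM

end Pool.Agent.X219.CB
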