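import Pool.Agent.X219.CB.Defs

/-! Basic facts on initial segments, cylinders and perfect kernels. -/

set_option autoImplicit false

open Set Topology

namespace Pool.Agent.X219.CB

@[simp] theorem length_seg (x : Baire) (n : ℕ) : (seg x n).length = n := by simp [seg]

theorem seg_getD {x : Baire} {n i : ℕ} (h : i < n) : (seg x n).getD i 0 = x i := by
  simp [seg, List.getD, h]

theorem seg_congr {x y : Baire} {n : ℕ} (h : ∀ i < n, x i = y i) : seg x n = seg y n :=
  List.map_congr_left fun i hi => h i (List.mem_range.1 hi)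

theorem seg_eq_iff {x y : Baire} {n : ℕ} : seg x n = seg y n ↔ ∀ i < n, x i = y i := by
  refine ⟨fun h i hi => ?_, seg_congr⟩
  rw [← seg_getD (x := x) hi, h, seg_getD hi]

theorem seg_prefix {x : Baire} {m n : ℕ} (h : m ≤ n) : seg x m <+: seg x n := by
  obtain ⟨k, rfl⟩ := Nat.exists_eq_add_of_le h
  rw [seg, seg, List.range_add, List.map_append]
  exact List.prefix_append _ _

theorem seg_succ (x : Baire) (n : ℕ) : seg x (n + 1) = seg x n ++ [x n] := by
  simp [seg, List.range_succ]

theorem prefix_getD {s t : List ℕ} (h : s <+: t) {i : ℕ} (hi : i < s.length) :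
    s.getD i 0 = t.getD i 0 := by
  obtain ⟨r, rfl⟩ := h
  simp [List.getD, List.getElem?_append_left hi]

theorem prefix_seg_iff {s : List ℕ} {x : Baire} {n : ℕ} (h : s.length ≤ n) :
    s <+: seg x n ↔ x ∈ cyl s := by
  constructor
  · intro hs
    have h1 : seg x s.length <+: seg x n := seg_prefix h
    exact (List.prefix_of_prefix_length_le h1 hs (by simp)).eq_of_length (by simp)
  · intro hs
    have h1 : seg x s.length = s := hs
    rw [← h1]
    exact seg_prefix (by simpa using h)

theorem mem_cyl_seg (x : Baire) (n : ℕ) : x ∈ cyl (seg x n) := by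
  simp [cyl]

theorem mem_cyl_iff {s : List ℕ} {x : Baire} : x ∈ cyl s ↔ ∀ i < s.length, x i = s.getD i 0 := by
  constructor
  · intro h i hi
    have h1 : seg x s.length = s := h
    rw [← seg_getD (x := x) hi, h1]
  · intro h
    show seg x s.length = s
    refine List.ext_getElem (by simp) fun i h1 h2 => ?_
    have := h i h2
    simp only [List.getD, h2, List.getElem?_eq_getElem, Option.getD_some] at this
    simp [seg, this]

theorem mem_cyl_seg_iff {x y : Baire} {n : ℕ} : y ∈ cyl (seg x n) ↔ seg y n = seg x n := by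
  simp [cyl]

theorem cyl_anti {s t : List ℕ} (h : s <+: t) : cyl t ⊆ cyl s := by
  intro x hx
  rw [mem_cyl_iff] at hx ⊢
  intro i hi
  rw [hx i (hi.trans_le h.length_le), prefix_getD h hi]

theorem prefix_of_mem {s : List ℕ} {x : Baire} (h : x ∈ cyl s) {n : ℕ} (hn : s.length ≤ n) :
    s <+: seg x n := (prefix_seg_iff hn).2 h

theorem isClopen_cyl (s : List ℕ) : IsClopen (cyl s) := by
  have h : cyl s = ⋂ i ∈ Finset.range s.length, {x : Baire | x i = s.getD i 0} := by
    ext x
    rw [mem_cyl_iff]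
    simp
  rw [h]
  refine isClopen_biInter_finset fun i _ => ?_
  exact (isClopen_discrete {s.getD i 0}).preimage (continuous_apply i)

theorem exists_seg_subset {O : Set Baire} (hO : IsOpen O) {x : Baire} (hx : x ∈ O) :
    ∃ n, ∀ m ≥ n, cyl (seg x m) ⊆ O := by
  rw [isOpen_pi_iff] at hO
  obtain ⟨I, u, hu, hs⟩ := hO x hx
  refine ⟨I.sup id + 1, fun m hm y hy => hs ?_⟩
  intro i hi
  have h1 : i < m := by
    have : i ≤ I.sup id := Finset.le_sup (f := id) hi
    omega
  rw [mem_cyl_seg_iff, seg_eq_iff] at hy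
  rw [hy i h1]
  exact (hu i hi).2

theorem exists_ne_seg {x y : Baire} (h : x ≠ y) : ∃ n, ∀ m ≥ n, seg x m ≠ seg y m := by
  obtain ⟨i, hi⟩ := Function.ne_iff.1 h
  refine ⟨i + 1, fun m hm h' => hi ?_⟩
  exact (seg_eq_iff.1 h') i (by omega)

/-- A chain of lists has a limit. -/
theorem chain_limit {τ : ℕ → List ℕ} (h : ∀ i, τ i <+: τ (i + 1))
    (hl : ∀ i, (τ i).length < (τ (i + 1)).length) : ∃ x : Baire, ∀ i, x ∈ cyl (τ i) := by
  have hmono : ∀ i j, i ≤ j → τ i <+: τ j := by
    intro i j hij
    induction j, hij using Nat.le_induction with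
    | base => exact List.prefix_rfl
    | succ j _ ih => exact ih.trans (h j)
  have hlen : ∀ i, i ≤ (τ i).length := by
    intro i
    induction i with
    | zero => exact Nat.zero_le _
    | succ i ih => exact Nat.succ_le_of_lt (ih.trans_lt (hl i))
  refine ⟨fun n => (τ (n + 1)).getD n 0, fun i => ?_⟩
  rw [mem_cyl_iff]
  intro n hn
  rcases le_total i (n + 1) with h1 | h1
  · exact (prefix_getD (hmono _ _ h1) hn).symm
  · exact prefix_getD (hmono _ _ h1) (hlen (n + 1))

theorem isClosed_closedOf (p : Baire) : IsClosed (closedOf p) := by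
  have : closedOf p = ⋂ (n : ℕ) (s : List ℕ) (_ : p n = Encodable.encode s + 1), (cyl s)ᶜ := by
    ext x
    simp [closedOf]
  rw [this]
  exact isClosed_iInter fun n => isClosed_iInter fun s => isClosed_iInter fun _ =>
    (isClopen_cyl s).compl.isClosed

theorem exists_kernel {A : Set Baire} (hA : IsClosed A) : ∃ P, IsKernel A P := by
  obtain ⟨V, D, hV, hD, h⟩ := exists_countable_union_perfect_of_isClosed hA
  refine ⟨D, hD, by rw [h]; exact subset_union_right, hV.mono ?_⟩
  rintro x ⟨h1, h2⟩
  rw [h] at h1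
  exact h1.resolve_right h2

theorem not_countable_of_perfect {α : Type} [TopologicalSpace α] [PolishSpace α] {P : Set α}
    (hP : Perfect P) (hne : P.Nonempty) : ¬ P.Countable := by
  intro hc
  let := TopologicalSpace.upgradeIsCompletelyMetrizable α
  obtain ⟨f, hf1, -, hf3⟩ := hP.exists_nat_bool_injection hne
  have h1 : (Set.range f).Countable := hc.mono hf1
  have h2 : Countable (ℕ → Bool) := by
    have := h1.to_subtype
    exact (Equiv.ofInjective f hf3).injective.countable
  obtain ⟨g, hg⟩ := exists_surjective_nat (ℕ → Bool)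
  obtain ⟨n, hn⟩ := hg fun n => !(g n n)
  have h3 := congrFun hn n
  simp at h3

theorem perfect_inter_cyl {P : Set Baire} (hP : Perfect P) (s : List ℕ) :
    Perfect (cyl s ∩ P) := by
  refine ⟨(isClopen_cyl s).isClosed.inter hP.closed, ?_⟩
  exact hP.acc.open_inter (isClopen_cyl s).isOpen

theorem disjoint_iff_countable {A P : Set Baire} (h : IsKernel A P) (s : List ℕ) :
    cyl s ∩ P = ∅ ↔ (cyl s ∩ A).Countable := by
  constructor
  · intro h1
    refine h.2.2.mono ?_
    rintro x ⟨hx1, hx2⟩
    exact ⟨hx2, fun hx3 => by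
      have : x ∈ cyl s ∩ P := ⟨hx1, hx3⟩
      rw [h1] at this
      exact this⟩
  · intro h1
    by_contra h2
    refine not_countable_of_perfect (perfect_inter_cyl h.1 s) (nonempty_iff_ne_empty.2 h2) ?_
    exact h1.mono (inter_subset_inter_right _ h.2.1)

/-- `s` isolates a point of `A`. -/
def Isol (A : Set Baire) (s : List ℕ) : Prop := ∃ x, cyl s ∩ A = {x}

theorem Isol.mem_scat {A P : Set Baire} (h : IsKernel A P) {s : List ℕ} {x : Baire}
    (hx : cyl s ∩ A = {x}) : x ∈ A \ P := by
  have h1 : x ∈ cyl s ∩ A := by rw [hx]; rfl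
  refine ⟨h1.2, fun h2 => ?_⟩
  have h3 : (cyl s ∩ A).Countable := by rw [hx]; exact countable_singleton x
  rw [← disjoint_iff_countable h] at h3
  have : x ∈ cyl s ∩ P := ⟨h1.1, h2⟩
  rw [h3] at this
  exact this

theorem exists_isol {A P : Set Baire} (hA : IsClosed A) (h : IsKernel A P) {x : Baire}
    (hx : x ∈ A \ P) {O : Set Baire} (hO : IsOpen O) (hxO : x ∈ O) :
    ∃ s, cyl s ⊆ O ∧ Isol A s := by
  obtain ⟨n, hn⟩ := exists_seg_subset (hO.inter h.1.closed.isOpen_compl) ⟨hxO, hx.2⟩
  have hn := hn n le_rfl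
  have h1 : cyl (seg x n) ∩ P = ∅ := by
    rw [eq_empty_iff_forall_notMem]
    rintro y ⟨hy1, hy2⟩
    exact (hn hy1).2 hy2
  rw [disjoint_iff_countable h] at h1
  by_contra hcon
  push Not at hcon
  have hperf : Perfect (cyl (seg x n) ∩ A) := by
    refine ⟨(isClopen_cyl _).isClosed.inter hA, ?_⟩
    rw [preperfect_iff_nhds]
    intro y hy U hU
    by_contra hc
    push Not at hc
    obtain ⟨m, hm⟩ := exists_seg_subset (isOpen_interior (s := U)) (mem_interior_iff_mem_nhds.2 hU)
    let M := max m n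
    have hM1 : cyl (seg y M) ⊆ interior U := hm M (le_max_left _ _)
    have hyx : seg y n = seg x n := mem_cyl_seg_iff.1 hy.1
    have hM2 : cyl (seg y M) ⊆ cyl (seg x n) := by
      rw [← hyx]
      exact cyl_anti (seg_prefix (le_max_right _ _))
    refine hcon (seg y M) (fun z hz => (hn (hM2 hz)).1) ⟨y, ?_⟩
    ext z
    constructor
    · rintro ⟨hz1, hz2⟩
      exact hc z ⟨interior_subset (hM1 hz1), hM2 hz1, hz2⟩
    · rintro rfl
      exact ⟨mem_cyl_seg _ _, hy.2⟩
  exact not_countable_of_perfect hperf ⟨x, mem_cyl_seg _ _, hx.1⟩ h1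

end Pool.Agent.X219.CB
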