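import Pool.Agent.X219.CB.Main

/-! The core theorem. -/

set_option autoImplicit false

open Set Topology MeasureTheory

namespace Pool.Agent.X219.CB

theorem ms_pre {C : Type} [Countable C] {k : Baire → C} (hk : ∀ κ, MeasurableSet {a | k a = κ})
    (Q : C → Prop) : MeasurableSet {a | Q (k a)} := by
  have h : {a | Q (k a)} = {a | ∃ κ, Q κ ∧ k a = κ} := by
    ext a
    simp
  rw [h]
  exact ms_ex fun κ => ms_and (ms_const _) (hk κ)

theorem ms_segQ (n : ℕ) (Q : List ℕ → Prop) : MeasurableSet {a : Baire | Q (seg a n)} :=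
  ms_pre (k := fun a => seg a n) (fun s => ms_seg n s) Q

theorem ms_closed {f : Baire → Baire} (hf : Measurable f) :
    MeasurableSet {a | f a ∈ closedOf a} := by
  have h : {a | f a ∈ closedOf a} =
      {a | ∀ n, ∀ s : List ℕ, a n = Encodable.encode s + 1 → f a ∈ (cyl s)ᶜ} := rfl
  rw [h]
  refine ms_all fun n => ms_all fun s => ms_imp ?_ ?_
  · exact (measurable_pi_apply n) (measurableSet_singleton _)
  · exact hf (isClopen_cyl s).isOpen.measurableSet.compl

theorem An_nonempty : An fun a => (closedOf a).Nonempty := by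
  have h1 : An fun a => ∃ x : Baire, ∀ n, ∀ s : List ℕ, a n = Encodable.encode s + 1 →
      x ∈ (cyl s)ᶜ := by
    refine An.proj (ms_all fun n => ms_all fun s => ms_imp ?_ ?_)
    · exact ms_fst (P := fun a => a n = Encodable.encode s + 1)
        ((measurable_pi_apply n) (measurableSet_singleton _))
    · exact measurable_snd (isClopen_cyl s).isOpen.measurableSet.compl
  exact h1

theorem An_not_val {T : Baire → List ℕ → Prop} (hm : ∀ τ, MeasurableSet {a | T a τ})
    (hT : ∀ a s t, s <+: t → T a t → T a s) (κ : List ℕ × List ℕ) :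
    An fun a => ¬ Val (body (T a)) κ := by
  have h1 : An fun a => ¬ (κ.1.length = κ.2.length) ∨
      (∃ s : List ℕ, Encodable.encode s + 1 ∈ κ.1 ∧ ¬ (cyl s ∩ body (T a)).Countable) ∨
      (¬ (∀ i, Nat.pair i 0 < κ.2.length → κ.2.getD (Nat.pair i 0) 0 ≤ 1)) ∨
      (∃ i, (Nat.pair i 0 < κ.2.length ∧ κ.2.getD (Nat.pair i 0) 0 = 1) ∧
        ∀ τ, ¬ (cyl τ ⊆ box κ.2 i) ∨ ¬ Isol (body (T a)) τ) :=
    An.or (An.const _) (An.or (An.ex fun s => An.and (An.const _) (An_not_countable hm hT s))
      (An.or (An.const _) (An.ex fun i => An.and (An.const _) (An.all fun τ =>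
        An.or (An.const _) (An_not_isol hm hT τ)))))
  refine h1.congr fun a => ?_
  unfold Val
  rw [not_and_or, not_and_or, not_and_or]
  refine or_congr Iff.rfl (or_congr ?_ (or_congr Iff.rfl ?_))
  · push Not
    rfl
  · push Not
    refine exists_congr fun i => and_congr Iff.rfl (forall_congr' fun τ => ?_)
    exact imp_iff_not_or.symm

section Core

variable {T : Baire → List ℕ → Prop} {K : Baire → Set Baire}
  {Ev : ℕ → List ℕ → List ℕ → List ℕ → List ℕ}

theorem const_case (hm : ∀ τ, MeasurableSet {a | T a τ})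
    (hT : ∀ a s t, s <+: t → T a t → T a s) (hK : ∀ a, IsKernel (body (T a)) (K a))
    (hmono : ∀ c (a p l : Baire) m n, m ≤ n →
      Ev c (seg a m) (seg p m) (seg l m) <+: Ev c (seg a n) (seg p n) (seg l n))
    (hred : ∀ a, (closedOf a).Nonempty → ∀ p, closedOf p = K a → ∀ l,
      IsList l (body (T a) \ K a) → ∃ r ∈ closedOf a, ∀ n, ∃ m,
        seg r n <+: Ev (code (body (T a) \ K a)) (seg a m) (seg p m) (seg l m))
    (c : ℕ) {E : Baire → Prop} (hE : An E) (hE1 : ∀ a, E a → (closedOf a).Nonempty)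
    (hE2 : ∀ a, E a → code (body (T a) \ K a) = c) :
    ∃ f : Baire → Baire, Measurable f ∧ ∀ a, E a → f a ∈ closedOf a := by
  classical
  let St := {k : Baire → List ℕ × List ℕ // (∀ κ, MeasurableSet {a | k a = κ}) ∧
    ∀ a, E a → Val (body (T a)) (k a)}
  let out : Baire → List ℕ × List ℕ → List ℕ := fun a κ => Ev c (seg a κ.1.length) κ.1 κ.2
  have hnext : ∀ (n : ℕ) (k : St), ∃ k' : St, ∀ a, E a →
      ((k.1 a).1 <+: (k'.1 a).1 ∧ (k.1 a).2 <+: (k'.1 a).2) ∧
      n ≤ (out a (k'.1 a)).length := by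
    rintro n ⟨k, hk1, hk2⟩
    have hP1 : ∀ κ : List ℕ × List ℕ, An fun a => ¬ (Val (body (T a)) κ ∧
        ((k a).1 <+: κ.1 ∧ (k a).2 <+: κ.2) ∧ n ≤ (out a κ).length) := by
      intro κ
      have h1 : An fun a => ¬ Val (body (T a)) κ ∨ ¬ ((k a).1 <+: κ.1 ∧ (k a).2 <+: κ.2) ∨
          ¬ (n ≤ (out a κ).length) :=
        An.or (An_not_val hm hT κ) (An.or
          (An.of_meas (ms_pre hk1 fun κ' => ¬ (κ'.1 <+: κ.1 ∧ κ'.2 <+: κ.2)))
          (An.of_meas (ms_segQ κ.1.length fun s => ¬ (n ≤ (Ev c s κ.1 κ.2).length))))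
      refine h1.congr fun a => ?_
      have h2 : ∀ A B C : Prop, (¬ A ∨ ¬ B ∨ ¬ C) ↔ ¬ (A ∧ B ∧ C) := by
        intro A B C
        tauto
      exact h2 _ _ _
    have hP2 : ∀ a, E a → ∃ κ : List ℕ × List ℕ, Val (body (T a)) κ ∧
        ((k a).1 <+: κ.1 ∧ (k a).2 <+: κ.2) ∧ n ≤ (out a κ).length := by
      intro a ha
      obtain ⟨p, l, h1, h2, h3, h4⟩ := extend (hK a) (hk2 a ha)
      obtain ⟨r, hr, hr2⟩ := hred a (hE1 a ha) p h3 l h4
      rw [hE2 a ha] at hr2
      obtain ⟨m, hm'⟩ := hr2 n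
      have hle : m ≤ max m (k a).1.length := le_max_left _ _
      have hle2 : (k a).1.length ≤ max m (k a).1.length := le_max_right _ _
      refine ⟨(seg p (max m (k a).1.length), seg l (max m (k a).1.length)),
        val_seg (isClosed_body _) (hK a) h3 h4 _, ⟨?_, ?_⟩, ?_⟩
      · have h5 := seg_prefix (x := p) hle2
        rwa [h1] at h5
      · have h5 := seg_prefix (x := l) hle2
        rwa [h2] at h5
      · have h6 := (hm'.trans (hmono c a p l _ _ hle)).length_le
        simpa [out] using h6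
    obtain ⟨k', hk'1, hk'2⟩ := select (C := List ℕ × List ℕ) hE hP1 hP2
    exact ⟨⟨k', hk'1, fun a ha => (hk'2 a ha).1⟩, fun a ha => (hk'2 a ha).2⟩
  choose nx hnx using hnext
  let k0 : St := ⟨fun _ => ([], []), fun κ => ms_const _, fun a _ => by
    refine ⟨rfl, ?_, ?_, ?_⟩
    · intro s hs
      simp at hs
    · intro i hi
      simp at hi
    · rintro i ⟨hi, -⟩
      simp at hi⟩
  let k : ℕ → St := fun n => Nat.rec k0 (fun n k => nx (n + 1) k) n
  have hk : ∀ n a, E a → (((k n).1 a).1 <+: ((k (n + 1)).1 a).1 ∧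
      ((k n).1 a).2 <+: ((k (n + 1)).1 a).2) ∧ n + 1 ≤ (out a ((k (n + 1)).1 a)).length :=
    fun n a ha => hnx (n + 1) (k n) a ha
  have hkle : ∀ a, E a → ∀ i j, i ≤ j → (((k i).1 a).1 <+: ((k j).1 a).1 ∧
      ((k i).1 a).2 <+: ((k j).1 a).2) := by
    intro a ha i j hij
    induction j, hij using Nat.le_induction with
    | base => exact ⟨List.prefix_rfl, List.prefix_rfl⟩
    | succ j _ ih => exact ⟨ih.1.trans (hk j a ha).1.1, ih.2.trans (hk j a ha).1.2⟩
  refine ⟨fun a n => (out a ((k (n + 1)).1 a)).getD n 0, ?_, ?_⟩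
  · refine measurable_pi_lambda _ fun n => ?_
    refine measurable_to_countable' fun y => ?_
    have h1 : (fun a : Baire => (out a ((k (n + 1)).1 a)).getD n 0) ⁻¹' {y} =
        {a : Baire | ∃ κ : List ℕ × List ℕ, (k (n + 1)).1 a = κ ∧ (out a κ).getD n 0 = y} := by
      ext a
      simp
    rw [h1]
    exact ms_ex fun κ => ms_and ((k (n + 1)).2.1 κ)
      (ms_segQ κ.1.length fun s => (Ev c s κ.1 κ.2).getD n 0 = y)
  · intro a ha n0 s hn0 hs
    obtain ⟨p, l, h1, h2, h3, h4⟩ := extend (hK a) ((k s.length).2.2 a ha)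
    obtain ⟨r, hr, hr2⟩ := hred a (hE1 a ha) p h3 l h4
    rw [hE2 a ha] at hr2
    refine hr n0 s hn0 ?_
    have hout : ∀ j, j ≤ s.length → out a ((k j).1 a) =
        Ev c (seg a ((k j).1 a).1.length) (seg p ((k j).1 a).1.length)
          (seg l ((k j).1 a).1.length) := by
      intro j hj
      obtain ⟨h5, h6⟩ := hkle a ha j s.length hj
      have h7 : p ∈ cyl ((k j).1 a).1 := by
        rw [← prefix_seg_iff h5.length_le, h1]
        exact h5
      have hlen := ((k j).2.2 a ha).1
      have h8 : l ∈ cyl ((k j).1 a).2 := by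
        rw [← prefix_seg_iff (n := ((k s.length).1 a).1.length)
          (by rw [← hlen]; exact h5.length_le), h2]
        exact h6
      have h7' : seg p ((k j).1 a).1.length = ((k j).1 a).1 := h7
      have h8' : seg l ((k j).1 a).2.length = ((k j).1 a).2 := h8
      rw [← hlen] at h8'
      show Ev c (seg a ((k j).1 a).1.length) ((k j).1 a).1 ((k j).1 a).2 = _
      rw [h7', h8']
    have hlast : s.length ≤ (out a ((k s.length).1 a)).length := by
      rcases Nat.eq_zero_or_pos s.length with h | h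
      · rw [h]
        exact Nat.zero_le _
      · obtain ⟨N, hN⟩ := Nat.exists_eq_succ_of_ne_zero h.ne'
        rw [hN]
        exact (hk N a ha).2
    have hmonoout : ∀ j, j ≤ s.length → out a ((k j).1 a) <+: out a ((k s.length).1 a) := by
      intro j hj
      rw [hout j hj, hout _ le_rfl]
      exact hmono c a p l _ _ (hkle a ha j _ hj).1.length_le
    obtain ⟨m, hm'⟩ := hr2 s.length
    have h10 : seg r s.length <+: out a ((k s.length).1 a) := by
      rw [hout _ le_rfl] at hlast ⊢
      refine List.prefix_of_prefix_length_le (hm'.trans (hmono c a p l _ _ (le_max_left m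
        ((k s.length).1 a).1.length))) (hmono c a p l _ _ (le_max_right _ _)) ?_
      simpa using hlast
    rw [mem_cyl_iff] at hs ⊢
    intro i hi
    rw [← hs i hi]
    have h11 : i + 1 ≤ (out a ((k (i + 1)).1 a)).length := (hk i a ha).2
    have h12 := prefix_getD (hmonoout (i + 1) hi) (i := i) h11
    have h13 := prefix_getD h10 (i := i) (by simpa using hi)
    rw [seg_getD hi] at h13
    rw [h13, ← h12]

/-- The scattered part has `k` points. -/
def Many (S : Set Baire) (k : ℕ) : Prop := ∃ F : Finset Baire, F.card = k ∧ (F : Set Baire) ⊆ S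

theorem many_iff {B P : Set Baire} (hB : IsClosed B) (hP : IsKernel B P) (k : ℕ) :
    Many (B \ P) k ↔ ∃ H : Finset (List ℕ), (H.card = k ∧
      ∀ s ∈ H, ∀ t ∈ H, s ≠ t → Disjoint (cyl s) (cyl t)) ∧ ∀ s ∈ H, Isol B s := by
  classical
  constructor
  · rintro ⟨F, hF, hFS⟩
    obtain ⟨N, hN⟩ : ∃ N, ∀ x ∈ F, ∀ y ∈ F, x ≠ y → seg x N ≠ seg y N := by
      have h1 : ∀ q : Baire × Baire, ∃ n, q.1 ≠ q.2 → ∀ m ≥ n, seg q.1 m ≠ seg q.2 m := by
        intro q
        by_cases h : q.1 = q.2
        · exact ⟨0, fun h' => absurd h h'⟩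
        · obtain ⟨n, hn⟩ := exists_ne_seg h
          exact ⟨n, fun _ => hn⟩
      choose n hn using h1
      refine ⟨(F ×ˢ F).sup n, fun x hx y hy hne => hn (x, y) hne _ ?_⟩
      exact Finset.le_sup (f := n) (Finset.mem_product.2 ⟨hx, hy⟩)
    have h2 : ∀ x ∈ F, ∃ s, cyl s ⊆ cyl (seg x N) ∧ Isol B s := fun x hx =>
      exists_isol hB hP (hFS hx) (isClopen_cyl _).isOpen (mem_cyl_seg x N)
    choose! s hs1 hs2 using h2
    have hne : ∀ x ∈ F, (cyl (s x)).Nonempty := by
      intro x hx
      obtain ⟨y, hy⟩ := hs2 x hx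
      have : y ∈ cyl (s x) ∩ B := by rw [hy]; rfl
      exact ⟨y, this.1⟩
    have hdis : ∀ x ∈ F, ∀ y ∈ F, x ≠ y → Disjoint (cyl (s x)) (cyl (s y)) := by
      intro x hx y hy hxy
      rw [Set.disjoint_left]
      intro z hz1 hz2
      have h3 := mem_cyl_seg_iff.1 (hs1 x hx hz1)
      have h4 := mem_cyl_seg_iff.1 (hs1 y hy hz2)
      exact hN x hx y hy hxy (h3.symm.trans h4)
    have hinj : Set.InjOn s F := by
      intro x hx y hy hxy
      by_contra hne'
      have h5 := hdis x hx y hy hne'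
      rw [← hxy, disjoint_self] at h5
      exact (hne x hx).ne_empty h5
    refine ⟨F.image s, ⟨by rw [Finset.card_image_of_injOn hinj, hF], ?_⟩, ?_⟩
    · intro t ht t' ht' hne'
      obtain ⟨x, hx, rfl⟩ := Finset.mem_image.1 ht
      obtain ⟨y, hy, rfl⟩ := Finset.mem_image.1 ht'
      exact hdis x hx y hy fun h => hne' (by rw [h])
    · intro t ht
      obtain ⟨x, hx, rfl⟩ := Finset.mem_image.1 ht
      exact hs2 x hx
  · rintro ⟨H, ⟨hH, hdis⟩, hiso⟩
    choose! x hx using hiso
    have hxm : ∀ s ∈ H, x s ∈ cyl s ∩ B := fun s hs => by rw [hx s hs]; rfl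
    have hinj : Set.InjOn x H := by
      intro s hs t ht hst
      by_contra hne
      refine Set.disjoint_left.1 (hdis s hs t ht hne) (hxm s hs).1 ?_
      rw [hst]
      exact (hxm t ht).1
    refine ⟨H.image x, by rw [Finset.card_image_of_injOn hinj, hH], ?_⟩
    intro y hy
    obtain ⟨s, hs, rfl⟩ := Finset.mem_image.1 (Finset.mem_coe.1 hy)
    exact Isol.mem_scat hP (hx s hs)

theorem An_not_many (hm : ∀ τ, MeasurableSet {a | T a τ})
    (hT : ∀ a s t, s <+: t → T a t → T a s) (hK : ∀ a, IsKernel (body (T a)) (K a)) (k : ℕ) :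
    An fun a => ¬ Many (body (T a) \ K a) k := by
  have h1 : An fun a => ∀ H : Finset (List ℕ), ¬ (H.card = k ∧
      ∀ s ∈ H, ∀ t ∈ H, s ≠ t → Disjoint (cyl s) (cyl t)) ∨
      ∃ s, s ∈ H ∧ ¬ Isol (body (T a)) s :=
    An.all fun H => An.or (An.const _) (An.ex fun s => An.and (An.const _)
      (An_not_isol hm hT s))
  refine h1.congr fun a => ?_
  rw [many_iff (isClosed_body _) (hK a), not_exists]
  refine forall_congr' fun H => ?_
  constructor
  · rintro (h | ⟨s, h1, h2⟩) ⟨h3, h4⟩
    · exact h h3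
    · exact h2 (h4 s h1)
  · intro h
    rw [or_iff_not_imp_left]
    intro h3
    rw [not_not] at h3
    by_contra h4
    push Not at h4
    exact h ⟨h3, h4⟩

theorem core (hm : ∀ τ, MeasurableSet {a | T a τ})
    (hT : ∀ a s t, s <+: t → T a t → T a s) (hK : ∀ a, IsKernel (body (T a)) (K a))
    (hmono : ∀ c (a p l : Baire) m n, m ≤ n →
      Ev c (seg a m) (seg p m) (seg l m) <+: Ev c (seg a n) (seg p n) (seg l n))
    (hred : ∀ a, (closedOf a).Nonempty → ∀ p, closedOf p = K a → ∀ l,
      IsList l (body (T a) \ K a) → ∃ r ∈ closedOf a, ∀ n, ∃ m,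
        seg r n <+: Ev (code (body (T a) \ K a)) (seg a m) (seg p m) (seg l m)) : False := by
  classical
  have hfin : ∀ (S : Set Baire) (k : ℕ), Many S k → ¬ Many S (k + 1) → code S = k + 1 := by
    intro S k h1 h2
    have hf : S.Finite := by
      by_contra hinf
      obtain ⟨F, hF1, hF2⟩ := Set.Infinite.exists_subset_card_eq hinf (k + 1)
      exact h2 ⟨F, hF2, hF1⟩
    have h3 : ¬ S.Infinite := fun h => h hf
    unfold code
    rw [if_neg h3]
    congr 1
    obtain ⟨F, hF1, hF2⟩ := h1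
    apply le_antisymm
    · by_contra hlt
      push Not at hlt
      have h4 : k + 1 ≤ hf.toFinset.card := by
        rw [← Set.ncard_eq_toFinset_card S hf]
        exact hlt
      obtain ⟨G, hG1, hG2⟩ := Finset.exists_subset_card_eq h4
      refine h2 ⟨G, hG2, fun x hx => ?_⟩
      have := hG1 hx
      simpa using this
    · have h5 := Set.ncard_le_ncard hF2 hf
      rw [Set.ncard_coe_finset, hF1] at h5
      exact h5
  have claim : ∀ k, ∃ f : Baire → Baire, Measurable f ∧ ∀ a, (closedOf a).Nonempty →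
      ¬ Many (body (T a) \ K a) k → f a ∈ closedOf a := by
    intro k
    induction k with
    | zero =>
      refine ⟨fun a => a, measurable_id, fun a _ h => absurd ⟨∅, rfl, ?_⟩ h⟩
      simp
    | succ k ih =>
      obtain ⟨f, hf, hf2⟩ := ih
      obtain ⟨g, hg, hg2⟩ := const_case hm hT hK hmono hred (k + 1)
        (E := fun a => ((closedOf a).Nonempty ∧ ¬ Many (body (T a) \ K a) (k + 1)) ∧
          ¬ (f a ∈ closedOf a))
        (An.and (An.and An_nonempty (An_not_many hm hT hK (k + 1)))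
          (An.of_meas (ms_closed hf).compl)) (fun a ha => ha.1.1) (fun a ha => by
            refine hfin _ _ ?_ ha.1.2
            by_contra hc
            exact ha.2 (hf2 a ha.1.1 hc))
      refine ⟨fun a => if f a ∈ closedOf a then f a else g a, ?_, ?_⟩
      · exact Measurable.ite (ms_closed hf) hf hg
      · intro a ha hk
        by_cases h : f a ∈ closedOf a
        · simp only [h, if_true]
        · simp only [h, if_false]
          exact hg2 a ⟨⟨ha, hk⟩, h⟩
  choose f hf hf2 using claim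
  have hmeas : MeasurableSet {a : Baire | ∃ k, f k a ∈ closedOf a} :=
    ms_ex fun k => ms_closed (hf k)
  obtain ⟨g, hg, hg2⟩ := const_case hm hT hK hmono hred 0
    (E := fun a => (closedOf a).Nonempty ∧ ¬ ∃ k, f k a ∈ closedOf a)
    (An.and An_nonempty (An.of_meas hmeas.compl)) (fun a ha => ha.1) (fun a ha => by
      have h1 : ∀ k, Many (body (T a) \ K a) k := by
        intro k
        by_contra hc
        exact ha.2 ⟨k, hf2 k a ha.1 hc⟩
      have h2 : (body (T a) \ K a).Infinite := by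
        intro hfin'
        obtain ⟨F, hF1, hF2⟩ := h1 ((body (T a) \ K a).ncard + 1)
        have h5 := Set.ncard_le_ncard hF2 hfin'
        rw [Set.ncard_coe_finset, hF1] at h5
        omega
      unfold code
      rw [if_pos h2])
  refine not_meas_nonempty ?_
  have h3 : {a : Baire | (closedOf a).Nonempty} =
      {a : Baire | ∃ k, f k a ∈ closedOf a} ∪ {a | g a ∈ closedOf a} := by
    ext a
    constructor
    · intro ha
      by_cases h : ∃ k, f k a ∈ closedOf a
      · exact Or.inl h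
      · exact Or.inr (hg2 a ⟨ha, h⟩)
    · rintro (⟨k, hk⟩ | h)
      · exact ⟨_, hk⟩
      · exact ⟨_, h⟩
  rw [h3]
  exact hmeas.union (ms_closed hg)

end Core

end Pool.Agent.X219.CB
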