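import Mathlib

/-! Closed choice on Baire space and the Cantor-Bendixson problem: the definitions. -/

set_option autoImplicit false

namespace Pool.Agent.X219.CB

/-- Baire space. -/
abbrev Baire := ℕ → ℕ

/-- The initial segment of length `n`. -/
def seg (x : Baire) (n : ℕ) : List ℕ := (List.range n).map x

/-- The basic open set of all points with initial segment `s`. -/
def cyl (s : List ℕ) : Set Baire := {x | seg x s.length = s}

/-- The closed set with the negative name `p`: the name enumerates basic open sets whose union is
the complement (`p n = encode s + 1` removes the basic open set of `s`, `p n = 0` removes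
nothing). -/
def closedOf (p : Baire) : Set Baire := {x | ∀ n s, p n = Encodable.encode s + 1 → x ∉ cyl s}

/-- Pairing of two points of Baire space (even and odd places). -/
def pair (p q : Baire) : Baire := fun n => if n % 2 = 0 then p (n / 2) else q (n / 2)

/-- A problem (partial multivalued function between represented spaces), given on names: the
names of instances, and for each of them the names of solutions. -/
structure Problem where
  /-- the names of instances -/
  inst : Set Baire
  /-- the names of the solutions of the instance with a given name -/
  sol : Baire → Set Baire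

/-- The monotone word function `φ` maps the point `x` to the point `y`. -/
def Computes (φ : List ℕ → List ℕ) (x y : Baire) : Prop :=
  ∀ n, ∃ m, seg y n <+: φ (seg x m)

/-- Weihrauch reducibility (computable partial maps are given by computable monotone word
functions). -/
def WeihrauchLE (f g : Problem) : Prop :=
  ∃ φ ψ : List ℕ → List ℕ, Computable φ ∧ Computable ψ ∧
    (∀ s t, s <+: t → φ s <+: φ t) ∧ (∀ s t, s <+: t → ψ s <+: ψ t) ∧
    ∀ p ∈ f.inst, ∃ p', Computes φ p p' ∧ p' ∈ g.inst ∧
      ∀ q ∈ g.sol p', ∃ r, Computes ψ (pair p q) r ∧ r ∈ f.sol p

/-- Continuous Weihrauch reducibility: the word functions need not be computable. -/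
def ContinuousLE (f g : Problem) : Prop :=
  ∃ φ ψ : List ℕ → List ℕ,
    (∀ s t, s <+: t → φ s <+: φ t) ∧ (∀ s t, s <+: t → ψ s <+: ψ t) ∧
    ∀ p ∈ f.inst, ∃ p', Computes φ p p' ∧ p' ∈ g.inst ∧
      ∀ q ∈ g.sol p', ∃ r, Computes ψ (pair p q) r ∧ r ∈ f.sol p

/-- Closed choice on Baire space. -/
def choiceBaire : Problem where
  inst := {p | (closedOf p).Nonempty}
  sol p := closedOf p

/-- `P` is the perfect kernel of `A`: it is perfect and the rest of `A` is countable. -/
def IsKernel (A P : Set Baire) : Prop := Perfect P ∧ P ⊆ A ∧ (A \ P).Countable

/-- `l` codes a sequence `(b i, x i)` of elements of `{0,1} × Baire` with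
`S = {x i : b i = 1}`. -/
def IsList (l : Baire) (S : Set Baire) : Prop :=
  (∀ i, l (Nat.pair i 0) ≤ 1) ∧
    {x : Baire | ∃ i, l (Nat.pair i 0) = 1 ∧ x = fun j => l (Nat.pair i (j + 1))} = S

open Classical in
/-- The cardinality code: `0` for infinite sets, `|S| + 1` for finite ones. -/
noncomputable def code (S : Set Baire) : ℕ := if S.Infinite then 0 else S.ncard + 1

/-- The perfect kernel problem. -/
def kernelProblem : Problem where
  inst := Set.univ
  sol p := {q | IsKernel (closedOf p) (closedOf q)}

/-- The problem of listing the scattered part. -/
def wScList : Problem where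
  inst := Set.univ
  sol p := {l | ∃ P, IsKernel (closedOf p) P ∧ IsList l (closedOf p \ P)}

/-- The problem of finding the cardinality code of the scattered part (the natural number is the
first entry of the name). -/
def scCount : Problem where
  inst := Set.univ
  sol p := {c | ∃ P, IsKernel (closedOf p) P ∧ c 0 = code (closedOf p \ P)}

/-- Two problems solved for the same input. -/
def both (f g : Problem) : Problem where
  inst := f.inst ∩ g.inst
  sol p := {q | ∃ q₁ ∈ f.sol p, ∃ q₂ ∈ g.sol p, q = pair q₁ q₂}

/-- The list together with the cardinality code. -/
def scList : Problem := both wScList scCount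

/-- The Cantor-Bendixson problem. -/
def cbProblem : Problem := both kernelProblem scList

end Pool.Agent.X219.CB
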