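import Pool.Agent.X219.CB.Ana

/-! The core: no continuous procedure turns perfect kernel, list of the scattered part and
cardinality code into a point of a given closed set. -/

set_option autoImplicit false

open Set Topology MeasureTheory

namespace Pool.Agent.X219.CB

/-- Borel selection from countably many coanalytic sets covering an analytic set. -/
theorem select {E : Baire → Prop} (hE : An E) {C : Type} [Denumerable C]
    {P : C → Baire → Prop} (hP : ∀ κ, An fun a => ¬ P κ a) (h : ∀ a, E a → ∃ κ, P κ a) :
    ∃ k : Baire → C, (∀ κ, MeasurableSet {a | k a = κ}) ∧ ∀ a, E a → P (k a) a := by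
  classical
  have h1 : Pool.Agent.H579R3.SV.Sep
      (fun n => {a : Baire | E a ∧ ¬ P (Denumerable.ofNat C n) a}) := by
    refine Pool.Agent.H579R3.SV.novikov' (fun n => An.and hE (hP _)) ?_
    rw [eq_empty_iff_forall_notMem]
    intro a ha
    have h2 : ∀ n, E a ∧ ¬ P (Denumerable.ofNat C n) a := fun n => mem_iInter.1 ha n
    obtain ⟨κ, hκ⟩ := h a (h2 0).1
    refine (h2 (Encodable.encode κ)).2 ?_
    rw [Denumerable.ofNat_encode]
    exact hκ
  obtain ⟨B, hB1, hB2, hB3⟩ := h1
  have h3 : ∀ a, ∃ n, a ∉ B n := by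
    intro a
    by_contra hc
    push Not at hc
    have : a ∈ ⋂ n, B n := mem_iInter.2 hc
    rw [hB3] at this
    exact this
  refine ⟨fun a => Denumerable.ofNat C (Nat.find (h3 a)), fun κ => ?_, fun a ha => ?_⟩
  · have h4 : Measurable fun a => Nat.find (h3 a) :=
      measurable_find h3 fun k => (hB1 k).compl
    have h5 : MeasurableSet {n : ℕ | Denumerable.ofNat C n = κ} := MeasurableSet.of_discrete
    exact h4 h5
  · by_contra hc
    exact Nat.find_spec (h3 a) (hB2 _ ⟨ha, hc⟩)

/-- The restriction which a finite part of a list puts on its `i`-th point. -/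
def box (v : List ℕ) (i : ℕ) : Set Baire :=
  {x | ∀ j, Nat.pair i (j + 1) < v.length → x j = v.getD (Nat.pair i (j + 1)) 0}

theorem isOpen_box (v : List ℕ) (i : ℕ) : IsOpen (box v i) := by
  have h : box v i = ⋂ j ∈ Finset.range v.length,
      {x : Baire | Nat.pair i (j + 1) < v.length → x j = v.getD (Nat.pair i (j + 1)) 0} := by
    ext x
    simp only [box, mem_iInter, Finset.mem_range]
    constructor
    · intro h j _ hj
      exact h j hj
    · intro h j hj
      refine h j ?_ hj
      have := Nat.right_le_pair i (j + 1)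
      omega
  rw [h]
  refine isOpen_biInter_finset fun j _ => ?_
  by_cases hj : Nat.pair i (j + 1) < v.length
  · have h2 : {x : Baire | Nat.pair i (j + 1) < v.length →
        x j = v.getD (Nat.pair i (j + 1)) 0} =
        (fun x : Baire => x j) ⁻¹' {v.getD (Nat.pair i (j + 1)) 0} := by
      ext x
      exact ⟨fun h => h hj, fun h _ => h⟩
    rw [h2]
    exact (isOpen_discrete _).preimage (continuous_apply j)
  · have h2 : {x : Baire | Nat.pair i (j + 1) < v.length →
        x j = v.getD (Nat.pair i (j + 1)) 0} = univ := by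
      ext x
      exact ⟨fun _ => trivial, fun _ h => absurd h hj⟩
    rw [h2]
    exact isOpen_univ

/-- A finite part of names which can be extended to full names for the closed set `B`. -/
def Val (B : Set Baire) (κ : List ℕ × List ℕ) : Prop :=
  κ.1.length = κ.2.length ∧
  (∀ s : List ℕ, Encodable.encode s + 1 ∈ κ.1 → (cyl s ∩ B).Countable) ∧
  (∀ i, Nat.pair i 0 < κ.2.length → κ.2.getD (Nat.pair i 0) 0 ≤ 1) ∧
  (∀ i, (Nat.pair i 0 < κ.2.length ∧ κ.2.getD (Nat.pair i 0) 0 = 1) →
    ∃ τ, cyl τ ⊆ box κ.2 i ∧ Isol B τ)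

theorem val_seg {B P : Set Baire} (hB : IsClosed B) (hP : IsKernel B P) {p l : Baire}
    (hp : closedOf p = P) (hl : IsList l (B \ P)) (M : ℕ) : Val B (seg p M, seg l M) := by
  refine ⟨by simp, ?_, ?_, ?_⟩
  · intro s hs
    simp only [seg, List.mem_map, List.mem_range] at hs
    obtain ⟨i, -, hi⟩ := hs
    rw [← disjoint_iff_countable hP, eq_empty_iff_forall_notMem]
    rintro x ⟨hx1, hx2⟩
    rw [← hp] at hx2
    exact hx2 i s hi hx1
  · intro i hi
    rw [length_seg] at hi
    rw [seg_getD hi]
    exact hl.1 i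
  · rintro i ⟨hi, h1⟩
    dsimp only at hi h1 ⊢
    rw [length_seg] at hi
    rw [seg_getD hi] at h1
    have h2 : (fun j => l (Nat.pair i (j + 1))) ∈ B \ P := by
      rw [← hl.2]
      exact ⟨i, h1, rfl⟩
    refine exists_isol hB hP h2 (isOpen_box _ _) ?_
    intro j hj
    rw [length_seg] at hj
    rw [seg_getD hj]

theorem extend {B P : Set Baire} (hP : IsKernel B P) {κ : List ℕ × List ℕ} (h : Val B κ) :
    ∃ p l : Baire, seg p κ.1.length = κ.1 ∧ seg l κ.1.length = κ.2 ∧ closedOf p = P ∧
      IsList l (B \ P) := by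
  classical
  obtain ⟨u, v⟩ := κ
  obtain ⟨hlen, hu, hb, hx⟩ := h
  dsimp only at hlen hu hb hx ⊢
  let p : Baire := fun n => if n < u.length then u.getD n 0 else
    if cyl (Denumerable.ofNat (List ℕ) (n - u.length)) ∩ P = ∅ then n - u.length + 1 else 0
  have hx' : ∀ i, (Nat.pair i 0 < v.length ∧ v.getD (Nat.pair i 0) 0 = 1) →
      ∃ x ∈ B \ P, x ∈ box v i := by
    intro i hi
    obtain ⟨τ, h1, x, h2⟩ := hx i hi
    refine ⟨x, Isol.mem_scat hP h2, h1 ?_⟩
    have : x ∈ cyl τ ∩ B := by rw [h2]; rfl
    exact this.1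
  choose! X hX1 hX2 using hx'
  obtain ⟨e, he⟩ : ∃ e : ℕ → Baire, (B \ P).Nonempty → B \ P = range e := by
    by_cases hne : (B \ P).Nonempty
    · obtain ⟨e, he⟩ := hP.2.2.exists_eq_range hne
      exact ⟨e, fun _ => he⟩
    · exact ⟨fun _ _ => 0, fun h => absurd h hne⟩
  let bit : ℕ → ℕ := fun i => if Nat.pair i 0 < v.length then v.getD (Nat.pair i 0) 0 else
    if (B \ P).Nonempty then 1 else 0
  let pt : ℕ → Baire := fun i => if Nat.pair i 0 < v.length then
    (if v.getD (Nat.pair i 0) 0 = 1 then X i else fun j => v.getD (Nat.pair i (j + 1)) 0) else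
    e (i - v.length)
  let l : Baire := fun n => match (Nat.unpair n).2 with
    | 0 => bit (Nat.unpair n).1
    | j + 1 => pt (Nat.unpair n).1 j
  have hl0 : ∀ i, l (Nat.pair i 0) = bit i := by
    intro i
    simp [l, Nat.unpair_pair]
  have hl1 : ∀ i j, l (Nat.pair i (j + 1)) = pt i j := by
    intro i j
    simp [l, Nat.unpair_pair]
  refine ⟨p, l, ?_, ?_, ?_, ?_, ?_⟩
  · show p ∈ cyl u
    rw [mem_cyl_iff]
    intro i hi
    simp [p, hi]
  · rw [hlen]
    show l ∈ cyl v
    rw [mem_cyl_iff]
    intro n hn
    obtain ⟨i, j, rfl⟩ : ∃ i j, n = Nat.pair i j := ⟨_, _, (Nat.pair_unpair n).symm⟩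
    rcases j with _ | j
    · rw [hl0]
      simp [bit, hn]
    · have h0 : Nat.pair i 0 < v.length := by
        have : Nat.pair i 0 < Nat.pair i (j + 1) := Nat.pair_lt_pair_right i (Nat.succ_pos j)
        omega
      rw [hl1]
      by_cases h1 : v.getD (Nat.pair i 0) 0 = 1
      · simp only [pt, h0, h1, if_true]
        exact hX2 i ⟨h0, h1⟩ j hn
      · simp only [pt, h0, h1, if_true, if_false]
  · ext x
    constructor
    · intro hxp
      by_contra hxP
      obtain ⟨n, hn⟩ := exists_seg_subset hP.1.closed.isOpen_compl (x := x) hxP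
      have h1 : cyl (seg x n) ∩ P = ∅ := by
        rw [eq_empty_iff_forall_notMem]
        rintro y ⟨hy1, hy2⟩
        exact hn n le_rfl hy1 hy2
      refine hxp (u.length + Encodable.encode (seg x n)) (seg x n) ?_ (mem_cyl_seg x n)
      simp [p, h1]
    · intro hxP n s hn hs
      by_cases h1 : n < u.length
      · simp only [p, h1, if_true] at hn
        have h2 : Encodable.encode s + 1 ∈ u := by
          rw [← hn, List.getD_eq_getElem _ _ h1]
          exact List.getElem_mem h1
        have h3 := hu s h2
        rw [← disjoint_iff_countable hP, eq_empty_iff_forall_notMem] at h3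
        exact h3 x ⟨hs, hxP⟩
      · simp only [p, h1, if_false] at hn
        split_ifs at hn with h2
        have h3 : n - u.length = Encodable.encode s := by omega
        rw [h3, Denumerable.ofNat_encode, eq_empty_iff_forall_notMem] at h2
        exact h2 x ⟨hs, hxP⟩
  · intro i
    rw [hl0]
    by_cases h0 : Nat.pair i 0 < v.length
    · simp only [bit, h0, if_true]
      exact hb i h0
    · simp only [bit, h0, if_false]
      split_ifs <;> simp
  · ext x
    constructor
    · rintro ⟨i, h1, h2⟩
      have h2 : x = pt i := by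
        rw [h2]
        funext j
        exact hl1 i j
      rw [hl0] at h1
      by_cases h0 : Nat.pair i 0 < v.length
      · simp only [bit, h0, if_true] at h1
        rw [h2]
        simp only [pt, h0, h1, if_true]
        exact hX1 i ⟨h0, h1⟩
      · simp only [bit, h0, if_false] at h1
        split_ifs at h1 with hne
        rw [h2]
        simp only [pt, h0, if_false]
        rw [he hne]
        exact mem_range_self _
    · intro hxS
      have hne : (B \ P).Nonempty := ⟨x, hxS⟩
      have h3 := hxS
      rw [he hne] at h3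
      obtain ⟨n, rfl⟩ := h3
      have h0 : ¬ Nat.pair (n + v.length) 0 < v.length := by
        have := Nat.left_le_pair (n + v.length) 0
        omega
      refine ⟨n + v.length, ?_, ?_⟩
      · rw [hl0]
        simp only [bit, h0, hne, if_true, if_false]
      · funext j
        rw [hl1]
        simp only [pt, h0, if_false]
        rw [Nat.add_sub_cancel]

end Pool.Agent.X219.CB
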